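import Mathlib

/-!
# Stable tameness to all orders (MP_91aed7_ag): definitions

Part S: elementary matrices, stably elementary matrices, projective dimension.
Part A: the polynomial ring in `x_1, ..., x_n, y_0, y_1, ...`, the filtration by the degree in `y`,
tame automorphisms.
-/

set_option autoImplicit false

namespace Pool.AM

noncomputable section

/-! ## Part S -/

/-- products of transvections (elementary matrices) -/
def EL (ι : Type) [Fintype ι] [DecidableEq ι] (A : Type) [CommRing A] : Submonoid (Matrix ι ι A) :=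
  Submonoid.closure {M | ∃ (i j : ι) (c : A), i ≠ j ∧ M = Matrix.transvection i j c}

/-- stably elementary: `M ⊕ 1` is a product of elementary matrices -/
def SE {ι : Type} [Fintype ι] [DecidableEq ι] {A : Type} [CommRing A] (M : Matrix ι ι A) : Prop :=
  ∃ l : ℕ, Matrix.fromBlocks M 0 0 (1 : Matrix (Fin l) (Fin l) A) ∈ EL (ι ⊕ Fin l) A

/-- `1 + X N` -/
def Mt {ι : Type} [Fintype ι] [DecidableEq ι] {R : Type} [CommRing R]
    (N : Matrix ι ι R) : Matrix ι ι (Polynomial R) :=
  1 + (Polynomial.X : Polynomial R) • N.map Polynomial.C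

/-- `1 + X ν` is stably elementary, `ν` an endomorphism of a direct summand `P` of `R ^ n` -/
def T (R : Type) [CommRing R] (P : Type) [AddCommGroup P] [Module R P] (ν : P →ₗ[R] P) : Prop :=
  ∃ (n : ℕ) (i : P →ₗ[R] (Fin n → R)) (r : (Fin n → R) →ₗ[R] P), r ∘ₗ i = LinearMap.id ∧
    SE (Mt (LinearMap.toMatrix' (i ∘ₗ ν ∘ₗ r)))

/-- `0 → (P', ν') → (P, ν) → (P'', ν'') → 0` is exact -/
structure Ex {R : Type} [CommRing R] {P' P P'' : Type} [AddCommGroup P'] [Module R P']
    [AddCommGroup P] [Module R P] [AddCommGroup P''] [Module R P'']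
    (ν' : P' →ₗ[R] P') (ν : P →ₗ[R] P) (ν'' : P'' →ₗ[R] P'')
    (j : P' →ₗ[R] P) (q : P →ₗ[R] P'') : Prop where
  inj : Function.Injective j
  sur : Function.Surjective q
  exa : LinearMap.range j = LinearMap.ker q
  cj : j ∘ₗ ν' = ν ∘ₗ j
  cq : q ∘ₗ ν = ν'' ∘ₗ q

/-- existence of a resolution of length `d` by finitely generated projective modules (the last
module of the resolution is only asked to be projective) -/
def PD (R : Type) [CommRing R] : ℕ → ∀ (W : Type) [AddCommGroup W] [Module R W], Prop
  | 0, W, _, _ => Module.Projective R W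
  | d + 1, W, _, _ => ∃ (P : Type) (_ : AddCommGroup P) (_ : Module R P) (f : P →ₗ[R] W),
      Module.Finite R P ∧ Module.Projective R P ∧ Function.Surjective f ∧
      PD R d (LinearMap.ker f)

/-! ## Part A -/

/-- the variables: `x_i` (`i : Fin n`) and `y_j` (`j : ℕ`) -/
abbrev Vr (n : ℕ) : Type := Fin n ⊕ ℕ

/-- the polynomial ring in the variables `Vr n` -/
abbrev PS (k : Type) [Field k] (n : ℕ) : Type := MvPolynomial (Vr n) k

/-- weight of a variable: `0` for `x_i`, `1` for `y_j` -/
def wt {n : ℕ} : Vr n → ℕ := Sum.elim (fun _ => 0) (fun _ => 1)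

/-- degree of a monomial in the `y`-variables -/
def ydeg {n : ℕ} (m : Vr n →₀ ℕ) : ℕ := m.sum fun v e => e * wt v

/-- the polynomials all of whose monomials have degree at least `r` in the `y`-variables
(the `r`-th power of the ideal generated by the `y`-variables) -/
def J (k : Type) [Field k] (n : ℕ) (r : ℕ) : Submodule k (PS k n) where
  carrier := {f | ∀ m ∈ f.support, r ≤ ydeg m}
  add_mem' := by
    intro a b ha hb m hm
    rcases Finset.mem_union.1 (MvPolynomial.support_add hm) with h | h
    · exact ha m h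
    · exact hb m h
  zero_mem' := by
    intro m hm
    simp at hm
  smul_mem' := by
    intro c f hf m hm
    exact hf m (MvPolynomial.support_smul hm)

/-- elementary automorphism: adds to one variable a polynomial in the other variables -/
def IsEl {k : Type} [Field k] {σ : Type} (τ : MvPolynomial σ k ≃ₐ[k] MvPolynomial σ k) : Prop :=
  ∃ (i : σ) (f : MvPolynomial σ k), i ∉ f.vars ∧
    τ (MvPolynomial.X i) = MvPolynomial.X i + f ∧
    ∀ j : σ, j ≠ i → τ (MvPolynomial.X j) = MvPolynomial.X j

/-- multiplies one variable by a unit -/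
def IsSc {k : Type} [Field k] {σ : Type} (τ : MvPolynomial σ k ≃ₐ[k] MvPolynomial σ k) : Prop :=
  ∃ (i : σ) (c : k), c ≠ 0 ∧ τ (MvPolynomial.X i) = MvPolynomial.C c * MvPolynomial.X i ∧
    ∀ j : σ, j ≠ i → τ (MvPolynomial.X j) = MvPolynomial.X j

/-- the group generated by the elementary automorphisms and the scalings of one variable -/
def Tm (k : Type) [Field k] (σ : Type) : Subgroup (MvPolynomial σ k ≃ₐ[k] MvPolynomial σ k) :=
  Subgroup.closure {τ | IsEl τ ∨ IsSc τ}

/-- the variables `x_i` and `y_j`, `j < L` -/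
def low (n L : ℕ) : Set (Vr n) := {v | ∀ j, v = Sum.inr j → j < L}

/-- the same as a finite set -/
def lowF (n L : ℕ) : Finset (Vr n) := (Finset.univ : Finset (Fin n)).disjSum (Finset.range L)

/-- `θ` is an automorphism in the variables of `low n L` and fixes the other variables -/
def FL {k : Type} [Field k] {n : ℕ} (L : ℕ) (θ : PS k n ≃ₐ[k] PS k n) : Prop :=
  (∀ v ∈ low n L, θ (MvPolynomial.X v) ∈ MvPolynomial.supported k (low n L) ∧
    θ.symm (MvPolynomial.X v) ∈ MvPolynomial.supported k (low n L)) ∧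
  ∀ v ∉ low n L, θ (MvPolynomial.X v) = MvPolynomial.X v

/-- `θ` is the identity up to terms of weight at least `w` -/
def Lvl {k : Type} [Field k] {n : ℕ} (w : ℕ) (θ : PS k n ≃ₐ[k] PS k n) : Prop :=
  ∀ v, θ (MvPolynomial.X v) - MvPolynomial.X v ∈ J k n (w + wt v)

/-- a vector field -/
abbrev VF (k : Type) [Field k] (n : ℕ) : Type := Vr n → PS k n

/-- `H` is the part of weight `w` of a tame automorphism which is the identity in weights `< w` -/
def Real {k : Type} [Field k] {n : ℕ} (w : ℕ) (H : VF k n) : Prop :=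
  (∀ v, H v ∈ J k n (w + wt v)) ∧
  ∃ τ ∈ Tm k (Vr n), ∀ v, τ (MvPolynomial.X v) - MvPolynomial.X v - H v ∈ J k n (w + wt v + 1)

/-- the vector field `f ∂_i - (∂_i f) X_z ∂_z` -/
def KK {k : Type} [Field k] {n : ℕ} (i z : Vr n) (f : PS k n) : VF k n :=
  Pi.single i f - Pi.single z (MvPolynomial.pderiv i f * MvPolynomial.X z)

/-- the tame group of the problem -/
def Tame (k : Type) [Field k] (N : ℕ) :
    Subgroup (MvPolynomial (Fin N) k ≃ₐ[k] MvPolynomial (Fin N) k) :=
  Subgroup.closure
    ({σ | ∀ i : Fin N, (σ (MvPolynomial.X i)).totalDegree ≤ 1} ∪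
     {σ | ∃ i : Fin N, ∃ f : MvPolynomial (Fin N) k, i ∉ f.vars ∧
        σ (MvPolynomial.X i) = MvPolynomial.X i + f ∧
        ∀ j : Fin N, j ≠ i → σ (MvPolynomial.X j) = MvPolynomial.X j})

end

end Pool.AM
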