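import Pool.Agent.Work.MP_91aed7_am.Defs

/-!
# Stable tameness to all orders (MP_91aed7_ag): statements of the blocks
-/

set_option autoImplicit false

open Finset

namespace Pool.AM

noncomputable section

/-! ## Part S: matrices of determinant one over `k[x_1, ..., x_m]` are stably elementary -/

/-- EL1: elementary matrices -/
def Stmt_EL1 : Prop :=
  ∀ (ι κ : Type) [Fintype ι] [DecidableEq ι] [Fintype κ] [DecidableEq κ] (A : Type) [CommRing A],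
    (∀ (e : ι ≃ κ) (M : Matrix ι ι A), M ∈ EL ι A → Matrix.reindex e e M ∈ EL κ A) ∧
    (∀ M ∈ EL ι A, Matrix.fromBlocks M 0 0 (1 : Matrix κ κ A) ∈ EL (ι ⊕ κ) A) ∧
    (∀ M ∈ EL κ A, Matrix.fromBlocks (1 : Matrix ι ι A) 0 0 M ∈ EL (ι ⊕ κ) A) ∧
    (∀ B : Matrix ι κ A, Matrix.fromBlocks (1 : Matrix ι ι A) B 0 (1 : Matrix κ κ A)
      ∈ EL (ι ⊕ κ) A) ∧
    (∀ C : Matrix κ ι A, Matrix.fromBlocks (1 : Matrix ι ι A) 0 C (1 : Matrix κ κ A)
      ∈ EL (ι ⊕ κ) A) ∧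
    (∀ M ∈ EL ι A, M.det = 1 ∧ ∃ M' ∈ EL ι A, M * M' = 1 ∧ M' * M = 1) ∧
    (∀ (B : Type) [CommRing B] (f : A →+* B), ∀ M ∈ EL ι A, M.map f ∈ EL ι B)

/-- EL2: Whitehead's lemma -/
def Stmt_EL2 : Prop :=
  ∀ (ι : Type) [Fintype ι] [DecidableEq ι] (A : Type) [CommRing A] (g h : Matrix ι ι A),
    g * h = 1 → Matrix.fromBlocks g 0 0 h ∈ EL (ι ⊕ ι) A

/-- SE: laws for stably elementary matrices -/
structure SELaws : Prop where
  reindex : ∀ {ι κ : Type} [Fintype ι] [DecidableEq ι] [Fintype κ] [DecidableEq κ] {A : Type}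
    [CommRing A] (e : ι ≃ κ) {M : Matrix ι ι A}, SE M → SE (Matrix.reindex e e M)
  stab : ∀ {ι : Type} (κ : Type) [Fintype ι] [DecidableEq ι] [Fintype κ] [DecidableEq κ]
    {A : Type} [CommRing A] {M : Matrix ι ι A},
    SE (Matrix.fromBlocks M 0 0 (1 : Matrix κ κ A)) ↔ SE M
  of_EL : ∀ {ι : Type} [Fintype ι] [DecidableEq ι] {A : Type} [CommRing A] {M : Matrix ι ι A},
    M ∈ EL ι A → SE M
  mul : ∀ {ι : Type} [Fintype ι] [DecidableEq ι] {A : Type} [CommRing A] {M N : Matrix ι ι A},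
    SE M → SE N → SE (M * N)
  EL_mul : ∀ {ι : Type} [Fintype ι] [DecidableEq ι] {A : Type} [CommRing A]
    {E M : Matrix ι ι A}, E ∈ EL ι A → (SE (E * M) ↔ SE M)
  mul_EL : ∀ {ι : Type} [Fintype ι] [DecidableEq ι] {A : Type} [CommRing A]
    {E M : Matrix ι ι A}, E ∈ EL ι A → (SE (M * E) ↔ SE M)
  conj : ∀ {ι : Type} [Fintype ι] [DecidableEq ι] {A : Type} [CommRing A]
    {g h M : Matrix ι ι A}, g * h = 1 → SE M → SE (g * M * h)
  tri_left : ∀ {ι κ : Type} [Fintype ι] [DecidableEq ι] [Fintype κ] [DecidableEq κ] {A : Type}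
    [CommRing A] {M : Matrix ι ι A} (Y : Matrix ι κ A) {N : Matrix κ κ A},
    SE M → (SE (Matrix.fromBlocks M Y 0 N) ↔ SE N)
  tri_right : ∀ {ι κ : Type} [Fintype ι] [DecidableEq ι] [Fintype κ] [DecidableEq κ] {A : Type}
    [CommRing A] {M : Matrix ι ι A} (Y : Matrix ι κ A) {N : Matrix κ κ A},
    SE N → (SE (Matrix.fromBlocks M Y 0 N) ↔ SE M)
  det : ∀ {ι : Type} [Fintype ι] [DecidableEq ι] {A : Type} [CommRing A] {M : Matrix ι ι A},
    SE M → M.det = 1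
  map : ∀ {ι : Type} [Fintype ι] [DecidableEq ι] {A B : Type} [CommRing A] [CommRing B]
    (f : A →+* B) {M : Matrix ι ι A}, SE M → SE (M.map f)
  swap : ∀ {ι κ : Type} [Fintype ι] [DecidableEq ι] [Fintype κ] [DecidableEq κ] {A : Type}
    [CommRing A] (B : Matrix ι κ A) (C : Matrix κ ι A), SE (1 + B * C) → SE (1 + C * B)

def Stmt_SE : Prop := SELaws

/-- TL: laws for `T` -/
structure TLaws (R : Type) [CommRing R] : Prop where
  proj : ∀ {P : Type} [AddCommGroup P] [Module R P] {ν : P →ₗ[R] P}, T R P ν →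
    Module.Finite R P ∧ Module.Projective R P
  all : ∀ {P : Type} [AddCommGroup P] [Module R P] {ν : P →ₗ[R] P}, T R P ν →
    ∀ (n : ℕ) (i : P →ₗ[R] (Fin n → R)) (r : (Fin n → R) →ₗ[R] P), r ∘ₗ i = LinearMap.id →
      SE (Mt (LinearMap.toMatrix' (i ∘ₗ ν ∘ₗ r)))
  zero : ∀ (P : Type) [AddCommGroup P] [Module R P], Module.Finite R P → Module.Projective R P →
    T R P (0 : P →ₗ[R] P)
  ext : ∀ {P' P P'' : Type} [AddCommGroup P'] [Module R P'] [AddCommGroup P] [Module R P]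
    [AddCommGroup P''] [Module R P''] {ν' : P' →ₗ[R] P'} {ν : P →ₗ[R] P} {ν'' : P'' →ₗ[R] P''}
    {j : P' →ₗ[R] P} {q : P →ₗ[R] P''}, Ex ν' ν ν'' j q → T R P' ν' → T R P'' ν'' → T R P ν
  ker : ∀ {P' P P'' : Type} [AddCommGroup P'] [Module R P'] [AddCommGroup P] [Module R P]
    [AddCommGroup P''] [Module R P''] {ν' : P' →ₗ[R] P'} {ν : P →ₗ[R] P} {ν'' : P'' →ₗ[R] P''}
    {j : P' →ₗ[R] P} {q : P →ₗ[R] P''}, Ex ν' ν ν'' j q → T R P ν → T R P'' ν'' → T R P' ν'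
  coker : ∀ {P' P P'' : Type} [AddCommGroup P'] [Module R P'] [AddCommGroup P] [Module R P]
    [AddCommGroup P''] [Module R P''] {ν' : P' →ₗ[R] P'} {ν : P →ₗ[R] P} {ν'' : P'' →ₗ[R] P''}
    {j : P' →ₗ[R] P} {q : P →ₗ[R] P''}, Ex ν' ν ν'' j q → T R P' ν' → T R P ν →
    Module.Projective R P'' → T R P'' ν''

def Stmt_TL : Prop := ∀ (R : Type) [CommRing R], TLaws R

/-- DEV: devissage. If a class `U` of (finitely generated projective module, endomorphism)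
contains all `(P, 0)` and has the two out of three property, it contains all `(P, ν)` with `ν`
nilpotent. -/
def Stmt_DEV : Prop :=
  ∀ (R : Type) [CommRing R] [IsNoetherianRing R],
    (∀ (W : Type) [AddCommGroup W] [Module R W], Module.Finite R W → ∃ d, PD R d W) →
    ∀ (U : ∀ (P : Type) [AddCommGroup P] [Module R P], (P →ₗ[R] P) → Prop),
    (∀ (P : Type) [AddCommGroup P] [Module R P] (ν : P →ₗ[R] P), U P ν →
      Module.Finite R P ∧ Module.Projective R P) →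
    (∀ (P : Type) [AddCommGroup P] [Module R P], Module.Finite R P → Module.Projective R P →
      U P (0 : P →ₗ[R] P)) →
    (∀ (P' P P'' : Type) [AddCommGroup P'] [Module R P'] [AddCommGroup P] [Module R P]
      [AddCommGroup P''] [Module R P''] (ν' : P' →ₗ[R] P') (ν : P →ₗ[R] P) (ν'' : P'' →ₗ[R] P'')
      (j : P' →ₗ[R] P) (q : P →ₗ[R] P''), Ex ν' ν ν'' j q →
      (U P' ν' → U P'' ν'' → U P ν) ∧ (U P ν → U P'' ν'' → U P' ν') ∧
      (U P' ν' → U P ν → Module.Projective R P'' → U P'' ν'')) →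
    ∀ (P : Type) [AddCommGroup P] [Module R P] (ν : P →ₗ[R] P), Module.Finite R P →
      Module.Projective R P → IsNilpotent ν → U P ν

/-- GD: global dimension of polynomial rings in one variable -/
def Stmt_GD : Prop :=
  ∀ (R : Type) [CommRing R] (d : ℕ),
    (∀ M : ModuleCat.{0} R, CategoryTheory.HasProjectiveDimensionLE M d) →
    ∀ M : ModuleCat.{0} (Polynomial R), CategoryTheory.HasProjectiveDimensionLE M (d + 1)

/-- PDR: finitely generated modules over `k[x_1, ..., x_m]` have finite resolutions -/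
def Stmt_PDR : Prop :=
  ∀ (k : Type) [Field k] (m : ℕ) (W : Type) [AddCommGroup W]
    [Module (MvPolynomial (Fin m) k) W], Module.Finite (MvPolynomial (Fin m) k) W →
    ∃ d, PD (MvPolynomial (Fin m) k) d W

/-- NIL: `1 + X N` is stably elementary for `N` nilpotent over `k[x_1, ..., x_m]` -/
def Stmt_NIL : Prop :=
  ∀ (k : Type) [Field k] (m : ℕ) (ι : Type) [Fintype ι] [DecidableEq ι]
    (N : Matrix ι ι (MvPolynomial (Fin m) k)), IsNilpotent N → SE (Mt N)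

/-- NLP: `1 + X N` invertible implies `N` nilpotent -/
def Stmt_NLP : Prop :=
  ∀ (R : Type) [CommRing R] (ι : Type) [Fintype ι] [DecidableEq ι] (N : Matrix ι ι R)
    (U : Matrix ι ι (Polynomial R)), Mt N * U = 1 → IsNilpotent N

/-- HIG: Higman's linearization -/
def Stmt_HIG : Prop :=
  ∀ (R : Type) [CommRing R] (ι : Type) [Fintype ι] [DecidableEq ι]
    (M : Matrix ι ι (Polynomial R)), ∃ (l : ℕ) (M0 M1 : Matrix (ι ⊕ Fin l) (ι ⊕ Fin l) R),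
    ∃ E ∈ EL (ι ⊕ Fin l) (Polynomial R), ∃ F ∈ EL (ι ⊕ Fin l) (Polynomial R),
      Matrix.fromBlocks M 0 0 (1 : Matrix (Fin l) (Fin l) (Polynomial R))
        = E * (M0.map Polynomial.C + (Polynomial.X : Polynomial R) • M1.map Polynomial.C) * F

/-- FLD: matrices of determinant one over a field are (stably) elementary -/
def Stmt_FLD : Prop :=
  ∀ (k : Type) [Field k] (ι : Type) [Fintype ι] [DecidableEq ι] (M : Matrix ι ι k),
    M.det = 1 → SE M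

/-- SUS: the stable form of Suslin's theorem -/
def Stmt_SUS : Prop :=
  ∀ (k : Type) [Field k] (m : ℕ) (ι : Type) [Fintype ι] [DecidableEq ι]
    (M : Matrix ι ι (MvPolynomial (Fin m) k)), M.det = 1 → SE M

/-! ## Part A: automorphisms -/

/-- J: laws for the filtration -/
structure JLaws (k : Type) [Field k] (n : ℕ) : Prop where
  mul : ∀ {r s : ℕ} {f g : PS k n}, f ∈ J k n r → g ∈ J k n s → f * g ∈ J k n (r + s)
  X_mem : ∀ v : Vr n, MvPolynomial.X v ∈ J k n (wt v)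
  mono : ∀ {r s : ℕ}, r ≤ s → J k n s ≤ J k n r
  zero : ∀ f : PS k n, f ∈ J k n 0
  pd : ∀ {r : ℕ} (v : Vr n) {f : PS k n}, f ∈ J k n (r + wt v) → MvPolynomial.pderiv v f ∈ J k n r
  pd' : ∀ {r : ℕ} (v : Vr n) {f : PS k n}, f ∈ J k n r →
    MvPolynomial.pderiv v f ∈ J k n (r - wt v)
  const : ∀ {c : k}, MvPolynomial.C c ∈ J k n 1 → c = 0
  pres : ∀ (α : PS k n →ₐ[k] PS k n), (∀ v, α (MvPolynomial.X v) ∈ J k n (wt v)) →
    ∀ {r : ℕ} {f : PS k n}, f ∈ J k n r → α f ∈ J k n r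
  diff : ∀ (α β : PS k n →ₐ[k] PS k n) (s : ℕ), (∀ v, α (MvPolynomial.X v) ∈ J k n (wt v)) →
    (∀ v, β (MvPolynomial.X v) ∈ J k n (wt v)) →
    (∀ v, α (MvPolynomial.X v) - β (MvPolynomial.X v) ∈ J k n (s + wt v)) →
    ∀ {r : ℕ} {f : PS k n}, f ∈ J k n r → α f - β f ∈ J k n (r + s)
  taylor : ∀ (α : PS k n →ₐ[k] PS k n) (δ : Vr n → PS k n) (s : ℕ),
    (∀ v, α (MvPolynomial.X v) = MvPolynomial.X v + δ v) → (∀ v, δ v ∈ J k n (s + wt v)) →
    ∀ {r : ℕ} {f : PS k n}, f ∈ J k n r →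
      α f - f - MvPolynomial.mkDerivation k δ f ∈ J k n (r + 2 * s)

def Stmt_J : Prop := ∀ (k : Type) [Field k] (n : ℕ), JLaws k n

/-- LV: laws for `Lvl` -/
structure LvLaws (k : Type) [Field k] (n : ℕ) : Prop where
  pres : ∀ {w : ℕ} {θ : PS k n ≃ₐ[k] PS k n}, Lvl w θ → ∀ {r : ℕ} {f : PS k n}, f ∈ J k n r →
    θ f ∈ J k n r ∧ θ f - f ∈ J k n (r + w)
  mul : ∀ {w : ℕ} {θ θ' : PS k n ≃ₐ[k] PS k n}, Lvl w θ → Lvl w θ' → Lvl w (θ * θ')
  presi : ∀ {w : ℕ} {θ : PS k n ≃ₐ[k] PS k n}, 1 ≤ w → Lvl w θ → ∀ {r : ℕ} {f : PS k n},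
    f ∈ J k n r → θ⁻¹ f ∈ J k n r
  inv : ∀ {w : ℕ} {θ : PS k n ≃ₐ[k] PS k n}, 1 ≤ w → Lvl w θ → Lvl w θ⁻¹
  mono : ∀ {w w' : ℕ} {θ : PS k n ≃ₐ[k] PS k n}, w ≤ w' → Lvl w' θ → Lvl w θ

def Stmt_LV : Prop := ∀ (k : Type) [Field k] (n : ℕ), LvLaws k n

/-- FLL: laws for `FL` -/
structure FLLaws (k : Type) [Field k] (n : ℕ) : Prop where
  mono : ∀ {L L' : ℕ} {θ : PS k n ≃ₐ[k] PS k n}, L ≤ L' → FL L θ → FL L' θ
  mul : ∀ {L : ℕ} {θ θ' : PS k n ≃ₐ[k] PS k n}, FL L θ → FL L θ' → FL L (θ * θ')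
  inv : ∀ {L : ℕ} {θ : PS k n ≃ₐ[k] PS k n}, FL L θ → FL L θ⁻¹
  tame : ∀ τ ∈ Tm k (Vr n), ∃ L, FL L τ

def Stmt_FLL : Prop := ∀ (k : Type) [Field k] (n : ℕ), FLLaws k n

/-- RA: the realizable vector fields form a group, and elementary fields are realizable -/
structure RALaws (k : Type) [Field k] (n : ℕ) : Prop where
  add : ∀ {w : ℕ} {H H' : VF k n}, 1 ≤ w → Real w H → Real w H' → Real w (H + H')
  neg : ∀ {w : ℕ} {H : VF k n}, 1 ≤ w → Real w H → Real w (-H)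
  zero : ∀ w : ℕ, Real w (0 : VF k n)
  congr : ∀ {w : ℕ} {H H' : VF k n}, Real w H → (∀ v, H' v - H v ∈ J k n (w + wt v + 1)) →
    Real w H'
  el : ∀ (w : ℕ) (i : Vr n) (f : PS k n), i ∉ f.vars → f ∈ J k n (w + wt i) →
    Real w (Pi.single i f)

def Stmt_RA : Prop := ∀ (k : Type) [Field k] (n : ℕ), RALaws k n

/-- RK: commutators -/
def Stmt_RK : Prop :=
  ∀ (k : Type) [Field k] (n w a b : ℕ) (i : Vr n) (N : ℕ) (g h : PS k n), 1 ≤ w → 1 ≤ b →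
    wt i ≤ a → a + b = w + wt i → (Sum.inr N : Vr n) ≠ i → (Sum.inr N : Vr n) ∉ g.vars →
    (Sum.inr N : Vr n) ∉ h.vars → i ∉ g.vars → g ∈ J k n a → h ∈ J k n b →
    Real w (KK i (Sum.inr N) (g * h))

/-- RP: pure powers -/
def Stmt_RP : Prop :=
  ∀ (k : Type) [Field k] (n w j N : ℕ) (c : PS k n), 1 ≤ w → N ≠ j →
    (Sum.inr j : Vr n) ∉ c.vars → (Sum.inr N : Vr n) ∉ c.vars →
    Real w (KK (Sum.inr j) (Sum.inr N) (c * MvPolynomial.X (Sum.inr j) ^ (w + 1)))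

/-- RKK: all `KK i z f`, `z` a new variable -/
def Stmt_RKK : Prop :=
  ∀ (k : Type) [Field k] (n w : ℕ) (i : Vr n) (N : ℕ) (f : PS k n), 1 ≤ w →
    (Sum.inr N : Vr n) ≠ i → (Sum.inr N : Vr n) ∉ f.vars → f ∈ J k n (w + wt i) →
    Real w (KK i (Sum.inr N) f)

/-- JAC: the Jacobian determinant of an automorphism is constant -/
def Stmt_JAC : Prop :=
  ∀ (k : Type) [Field k] (σ : Type) [DecidableEq σ] (s : Finset σ)
    (θ : MvPolynomial σ k ≃ₐ[k] MvPolynomial σ k),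
    (∀ v ∈ s, θ.symm (MvPolynomial.X v) ∈ MvPolynomial.supported k (s : Set σ)) →
    ∃ c : k, c ≠ 0 ∧ (Matrix.of fun (u v : s) =>
      MvPolynomial.pderiv (v : σ) (θ (MvPolynomial.X (u : σ)))).det = MvPolynomial.C c

/-- DIV: the leading part of an automorphism has divergence zero -/
def Stmt_DIV : Prop :=
  ∀ (k : Type) [Field k] (n L w : ℕ) (θ : PS k n ≃ₐ[k] PS k n), 1 ≤ w → FL L θ → Lvl w θ →
    ∑ v ∈ lowF n L, MvPolynomial.pderiv v (θ (MvPolynomial.X v) - MvPolynomial.X v)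
      ∈ J k n (w + 1)

/-- STEP -/
def Stmt_STEP : Prop :=
  ∀ (k : Type) [Field k] (n L w : ℕ) (θ : PS k n ≃ₐ[k] PS k n), 1 ≤ w → FL L θ → Lvl w θ →
    ∃ τ ∈ Tm k (Vr n), Lvl (w + 1) (θ * τ⁻¹)

/-- LIN: elementary matrices over `k[x]` give tame automorphisms, linear in `y` -/
def Stmt_LIN : Prop :=
  ∀ (k : Type) [Field k] (n : ℕ) (ι : Type) [Fintype ι] [DecidableEq ι] (e : ι → ℕ),
    Function.Injective e → ∀ N ∈ EL ι (MvPolynomial (Fin n) k), ∃ μ ∈ Tm k (Vr n),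
      (∀ i : Fin n, μ (MvPolynomial.X (Sum.inl i)) = MvPolynomial.X (Sum.inl i)) ∧
      (∀ a : ι, μ (MvPolynomial.X (Sum.inr (e a)))
        = ∑ b, MvPolynomial.rename Sum.inl (N a b) * MvPolynomial.X (Sum.inr (e b))) ∧
      (∀ j ∉ Set.range e, μ (MvPolynomial.X (Sum.inr j)) = MvPolynomial.X (Sum.inr j)) ∧
      ∀ v, μ⁻¹ (MvPolynomial.X v) ∈ J k n (wt v)

/-- `Φ` extends `φ` and fixes the variables `y_j` -/
def ExtOf {k : Type} [Field k] {n : ℕ}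
    (φ : MvPolynomial (Fin n) k ≃ₐ[k] MvPolynomial (Fin n) k) (Φ : PS k n ≃ₐ[k] PS k n) : Prop :=
  (∀ i : Fin n, Φ (MvPolynomial.X (Sum.inl i))
    = MvPolynomial.rename Sum.inl (φ (MvPolynomial.X i))) ∧
  ∀ j : ℕ, Φ (MvPolynomial.X (Sum.inr j)) = MvPolynomial.X (Sum.inr j)

/-- EXT: extensions exist -/
def Stmt_EXT : Prop :=
  ∀ (k : Type) [Field k] (n : ℕ) (φ : MvPolynomial (Fin n) k ≃ₐ[k] MvPolynomial (Fin n) k),
    ∃ Φ : PS k n ≃ₐ[k] PS k n, ExtOf φ Φ ∧ ExtOf φ.symm Φ.symm ∧ FL 0 Φ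

/-- START: the first step -/
def Stmt_START : Prop :=
  ∀ (k : Type) [Field k] (n : ℕ) (φ : MvPolynomial (Fin n) k ≃ₐ[k] MvPolynomial (Fin n) k)
    (Φ : PS k n ≃ₐ[k] PS k n), ExtOf φ Φ → ExtOf φ.symm Φ.symm → FL 0 Φ →
    ∃ θ : PS k n ≃ₐ[k] PS k n, (∃ L, FL L θ) ∧ Lvl 1 θ ∧ Φ * θ ∈ Tm k (Vr n)

/-- the variables of `k[x_1, ..., x_(n+L)]` among the variables `x_i`, `y_j` -/
def emb (n L : ℕ) : Fin (n + L) → Vr n :=
  Fin.addCases (fun i => Sum.inl i) (fun j => Sum.inr (j : ℕ))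

/-- DSC: descent to finitely many variables -/
def Stmt_DSC : Prop :=
  ∀ (k : Type) [Field k] (n : ℕ), ∀ τ ∈ Tm k (Vr n), ∃ L₀ : ℕ, ∀ L, L₀ ≤ L →
    ∃ τ' ∈ Tame k (n + L), ∀ a : Fin (n + L),
      MvPolynomial.rename (emb n L) (τ' (MvPolynomial.X a)) = τ (MvPolynomial.X (emb n L a))

/-- FIN: the theorem -/
def Stmt_FIN : Prop :=
  ∀ (k : Type) [Field k] (n : ℕ) (φ : MvPolynomial (Fin n) k ≃ₐ[k] MvPolynomial (Fin n) k)
    (m : ℕ), ∃ l₀ : ℕ, ∀ l : ℕ, l₀ ≤ l → ∃ τ ∈ Tame k (n + l),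
      (∀ i : Fin n, τ (MvPolynomial.X (Fin.castAdd l i))
          - MvPolynomial.rename (Fin.castAdd l) (φ (MvPolynomial.X i))
        ∈ (Ideal.span (Set.range fun j : Fin l => (MvPolynomial.X (Fin.natAdd n j) :
            MvPolynomial (Fin (n + l)) k))) ^ m) ∧
      (∀ j : Fin l, τ (MvPolynomial.X (Fin.natAdd n j)) - MvPolynomial.X (Fin.natAdd n j)
        ∈ (Ideal.span (Set.range fun j : Fin l => (MvPolynomial.X (Fin.natAdd n j) :
            MvPolynomial (Fin (n + l)) k))) ^ m)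

end

end Pool.AM
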